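import Pool.Agent.TH32.Dep.Final

set_option autoImplicit false
open scoped ComplexOrder
open Finset

namespace Pool.Agent.TH32.Dep

variable {d n : ℕ}

theorem lam_diff (hd : 2 ≤ d) (q : Fin n → ℝ) (hq : ∀ i, 0 ≤ q i ∧ q i ≤ 1) (j : Fin n) :
    0 ≤ lam1 d q - lam2 d q j := by
  have hd0 : (0 : ℝ) < d := by
    have : 0 < d := by omega
    exact_mod_cast this
  unfold lam1 lam2
  rw [← Finset.mul_prod_erase Finset.univ _ (Finset.mem_univ j), ← sub_mul]
  refine mul_nonneg ?_ (Finset.prod_nonneg fun i _ => ?_)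
  · linarith [(hq j).1]
  · exact add_nonneg (hq i).1 (div_nonneg (by linarith [(hq i).2]) hd0.le)

theorem part_b (hd : 2 ≤ d) (q : Fin n → ℝ) (hq : ∀ i, 0 ≤ q i ∧ q i ≤ 1) (j : Fin n)
    (hj : ∀ i, q j ≤ q i) (hj1 : q j ≤ 1 / ((d : ℝ) + 1))
    (Φ : Matrix (Fin n → Fin d) (Fin n → Fin d) ℂ → Matrix (Fin n → Fin d) (Fin n → Fin d) ℂ)
    (hΦ : IsChan d n q Φ) (ρ : Matrix (Fin n → Fin d) (Fin n → Fin d) ℂ) (hρ : ρ.PosSemidef)
    (ht : ρ.trace = 1) (m : ℕ) (φ : Fin (m + 1) → (Fin n → Fin d) → ℂ) (hφ : ON φ) :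
    ∑ a, form (Φ ρ) (φ a) ≤ lam1 d q + m * lam2 d q j := by
  have h1 : ∀ a, form (Φ ρ) (φ a) ≤ lam2 d q j + (lam1 d q - lam2 d q j) * form ρ (φ a) := by
    intro a
    have h2 := part_a hd q hq j hj hj1 Φ hΦ ρ hρ ht (φ a)
    have h3 : ∑ x, ‖φ a x‖ ^ 2 = 1 := by
      have h4 := hφ a a
      rw [if_pos rfl] at h4
      have h5 : ((∑ x, ‖φ a x‖ ^ 2 : ℝ) : ℂ) = 1 := by
        rw [← h4]
        push_cast
        refine Finset.sum_congr rfl fun x _ => ?_
        rw [Complex.star_def, Complex.conj_mul']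
      exact_mod_cast h5
    rw [h3, mul_one] at h2
    exact h2
  have h6 : ∑ a, form ρ (φ a) ≤ 1 := by
    obtain ⟨ψ, hψ⟩ := psd_decomp ρ hρ
    rw [Finset.sum_congr rfl fun a _ => form_self ψ ρ hψ (φ a), Finset.sum_comm]
    rw [← trace_decomp ρ ψ hψ ht]
    exact Finset.sum_le_sum fun x _ => bessel φ hφ (ψ x)
  calc ∑ a, form (Φ ρ) (φ a) ≤ ∑ a, (lam2 d q j + (lam1 d q - lam2 d q j) * form ρ (φ a)) :=
        Finset.sum_le_sum fun a _ => h1 a
    _ = (m + 1) * lam2 d q j + (lam1 d q - lam2 d q j) * ∑ a, form ρ (φ a) := by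
        rw [Finset.sum_add_distrib, Finset.sum_const, Finset.card_univ, Fintype.card_fin,
          ← Finset.mul_sum, nsmul_eq_mul]
        push_cast
        ring
    _ ≤ (m + 1) * lam2 d q j + (lam1 d q - lam2 d q j) * 1 := by
        have := mul_le_mul_of_nonneg_left h6 (lam_diff hd q hq j)
        linarith
    _ = lam1 d q + m * lam2 d q j := by ring

/-- the basis vector `e_x` -/
def bas (x : Fin n → Fin d) : (Fin n → Fin d) → ℂ := fun y => if y = x then 1 else 0

theorem F_bas (x z : Fin n → Fin d) (t : Fin n → Bool) :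
    (F (fun p => bas x p.1 * bas z p.2) t).re
      = ∏ i, (if t i = true ∧ x i ≠ z i then (0 : ℝ) else 1) := by
  have h1 : F (fun p => bas x p.1 * bas z p.2) t = bas x (sw t x z) * bas z (sw t z x) := by
    unfold F
    rw [Finset.sum_eq_single (x, z)]
    · show star (bas x x * bas z z) * (bas x (sw t x z) * bas z (sw t z x)) = _
      have e1 : bas x x = 1 := if_pos rfl
      have e2 : bas z z = 1 := if_pos rfl
      rw [e1, e2]
      simp
    · intro p _ hp
      have : bas x p.1 * bas z p.2 = 0 := by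
        by_cases h : p.1 = x
        · have h2 : p.2 ≠ z := fun h3 => hp (Prod.ext h h3)
          simp [bas, h2]
        · simp [bas, h]
      show star (bas x p.1 * bas z p.2) * _ = 0
      rw [this]; simp
    · intro h; exact absurd (Finset.mem_univ _) h
  rw [h1]
  by_cases h : ∃ i, t i = true ∧ x i ≠ z i
  · obtain ⟨i, hi, hne⟩ := h
    have hz : ∏ i, (if t i = true ∧ x i ≠ z i then (0 : ℝ) else 1) = 0 :=
      Finset.prod_eq_zero (Finset.mem_univ i) (if_pos ⟨hi, hne⟩)
    rw [hz]
    have : sw t x z ≠ x := by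
      intro h2
      have := congrFun h2 i
      simp [sw, hi] at this
      exact hne this.symm
    simp [bas, this]
  · push Not at h
    have h2 : sw t x z = x := by
      funext i
      rcases h3 : t i
      · simp [sw, h3]
      · simp [sw, h3, h i h3]
    have h4 : sw t z x = z := by
      funext i
      rcases h3 : t i
      · simp [sw, h3]
      · simp [sw, h3, h i h3]
    rw [h2, h4]
    rw [Finset.prod_eq_one]
    · simp [bas]
    · intro i _
      rw [if_neg]
      intro h5
      exact h5.2 (h i h5.1)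

theorem basis_value (hd : 2 ≤ d) (q : Fin n → ℝ)
    (Φ : Matrix (Fin n → Fin d) (Fin n → Fin d) ℂ → Matrix (Fin n → Fin d) (Fin n → Fin d) ℂ)
    (hΦ : IsChan d n q Φ) (x z : Fin n → Fin d)
    (ρ : Matrix (Fin n → Fin d) (Fin n → Fin d) ℂ) (hρ : ∀ a b, ρ a b = bas z a * star (bas z b)) :
    form (Φ ρ) (bas x) = ∏ i, ((1 - q i) / d + if x i = z i then q i else 0) := by
  rw [form_sum hd q Φ hΦ (fun _ : Unit => bas z) ρ (by intro a b; simp [hρ a b]) (bas x)]
  rw [Finset.univ_unique, Finset.sum_singleton]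
  have h1 : ∀ t, w q (fun i => (1 - q i) / d) t * (F (fun p => bas x p.1 * bas z p.2) t).re
      = ∏ i, (if t i then q i else (1 - q i) / d) * (if t i = true ∧ x i ≠ z i then (0 : ℝ) else 1) := by
    intro t
    rw [F_bas, w, ← Finset.prod_mul_distrib]
  rw [Finset.sum_congr rfl fun t _ => h1 t]
  have h2 := sum_prod (n := n) (fun i b => (if b then q i else (1 - q i) / d) *
    (if b = true ∧ x i ≠ z i then (0 : ℝ) else 1))
  rw [h2]
  refine Finset.prod_congr rfl fun i _ => ?_
  rw [Fintype.sum_bool]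
  by_cases h : x i = z i
  · simp [h]; ring
  · simp [h]

theorem lam2_eq (hd : 2 ≤ d) (q : Fin n → ℝ) (hq : ∀ i, 0 ≤ q i ∧ q i ≤ 1) (i j : Fin n)
    (h : q i = q j) : lam2 d q i = lam2 d q j := by
  have hd0 : (0 : ℝ) < d := by
    have : 0 < d := by omega
    exact_mod_cast this
  have hd1 : (2 : ℝ) ≤ d := by exact_mod_cast hd
  have hs : ∀ i, 0 < q i + (1 - q i) / d := by
    intro i
    have h1 : q i + (1 - q i) / d = (1 + (d - 1) * q i) / d := by
      field_simp; ring
    rw [h1]
    refine div_pos ?_ hd0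
    have := mul_nonneg (by linarith : (0 : ℝ) ≤ d - 1) (hq i).1
    linarith
  have e : ∀ k, lam2 d q k * (q k + (1 - q k) / d) = (1 - q k) / d * ∏ i, (q i + (1 - q i) / d) := by
    intro k
    unfold lam2
    rw [← Finset.mul_prod_erase Finset.univ _ (Finset.mem_univ k)]
    ring
  have e1 := e i
  have e2 := e j
  rw [h] at e1
  rw [← e2] at e1
  exact mul_right_cancel₀ (hs j).ne' e1

theorem part_c (hd : 2 ≤ d) (q : Fin n → ℝ) (hq : ∀ i, 0 ≤ q i ∧ q i ≤ 1) (j : Fin n)
    (Φ : Matrix (Fin n → Fin d) (Fin n → Fin d) ℂ → Matrix (Fin n → Fin d) (Fin n → Fin d) ℂ)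
    (hΦ : IsChan d n q Φ) :
    ∃ ψ : Fin n → Fin d → ℂ, (∀ i, ∑ c, ‖ψ i c‖ ^ 2 = 1) ∧
      ∀ m : ℕ, m ≤ (Finset.univ.filter fun i => q i = q j).card * (d - 1) →
      ∃ φ : Fin (m + 1) → (Fin n → Fin d) → ℂ, ON φ ∧
        ∑ a, form (Φ (Matrix.of fun a b => ∏ i, ψ i (a i) * star (ψ i (b i)))) (φ a)
          = lam1 d q + m * lam2 d q j := by
  let z : Fin d := ⟨0, by omega⟩
  let z' : Fin n → Fin d := fun _ => z
  refine ⟨fun _ c => if c = z then 1 else 0, fun i => ?_, fun m hm => ?_⟩
  · rw [Finset.sum_eq_single z]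
    · simp
    · intro c _ hc
      simp [hc]
    · intro h; exact absurd (Finset.mem_univ _) h
  have hρ : ∀ a b : Fin n → Fin d, (Matrix.of fun a b : Fin n → Fin d =>
      ∏ i, (if a i = z then (1 : ℂ) else 0) * star (if b i = z then (1 : ℂ) else 0)) a b
      = bas z' a * star (bas z' b) := by
    intro a b
    rw [Matrix.of_apply, Finset.prod_mul_distrib]
    have h1 : ∀ a : Fin n → Fin d, ∏ i, (if a i = z then (1 : ℂ) else 0) = bas z' a := by
      intro a
      unfold bas
      by_cases h : a = z'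
      · rw [if_pos h]
        refine Finset.prod_eq_one fun i _ => ?_
        rw [h, if_pos rfl]
      · rw [if_neg h]
        have : ∃ i, a i ≠ z := by
          by_contra h2
          push Not at h2
          exact h (funext h2)
        obtain ⟨i, hi⟩ := this
        exact Finset.prod_eq_zero (Finset.mem_univ i) (if_neg hi)
    have h2 : ∏ i, star (if b i = z then (1 : ℂ) else 0) = star (∏ i, (if b i = z then (1 : ℂ) else 0)) := by
      rw [Complex.star_def, map_prod]
    rw [h2, h1, h1]
  have hval := fun x => basis_value hd q Φ hΦ x z' _ hρ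
  have hcard : Fintype.card (Fin m) ≤ Fintype.card ({i // q i = q j} × {c : Fin d // c ≠ z}) := by
    rw [Fintype.card_prod, Fintype.card_fin, Fintype.card_subtype, Fintype.card_subtype_compl]
    simpa using hm
  obtain ⟨e⟩ := Function.Embedding.nonempty_of_card_le hcard
  let pt : Fin (m + 1) → (Fin n → Fin d) :=
    Fin.cons z' (fun a => Function.update z' (e a).1.1 (e a).2.1)
  have hpt : Function.Injective pt := by
    refine Fin.cons_injective_iff.mpr ⟨?_, ?_⟩
    · rintro ⟨a, ha⟩
      have := congrFun ha (e a).1.1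
      simp only [Function.update_self] at this
      exact (e a).2.2 this
    · intro a b hab
      simp only at hab
      apply e.injective
      have h1 : (e a).1.1 = (e b).1.1 := by
        by_contra hne
        have := congrFun hab (e a).1.1
        rw [Function.update_self, Function.update_of_ne hne] at this
        exact (e a).2.2 this
      have h2 := congrFun hab (e a).1.1
      rw [Function.update_self, h1, Function.update_self] at h2
      exact Prod.ext (Subtype.ext h1) (Subtype.ext h2)
  refine ⟨fun a => bas (pt a), ?_, ?_⟩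
  · intro a b
    have h1 : ∀ x, star (bas (pt a) x) * bas (pt b) x = if x = pt a then bas (pt b) x else 0 := by
      intro x
      by_cases h : x = pt a
      · simp [bas, h]
      · simp [bas, h]
    rw [Finset.sum_congr rfl fun x _ => h1 x, Finset.sum_ite_eq']
    simp only [Finset.mem_univ, if_true, bas]
    by_cases h : a = b
    · simp [h]
    · rw [if_neg h, if_neg (fun h2 => h (hpt h2))]
  · rw [Fin.sum_univ_succ]
    have h0 : form (Φ (Matrix.of fun a b : Fin n → Fin d =>
      ∏ i, (if a i = z then (1 : ℂ) else 0) * star (if b i = z then (1 : ℂ) else 0))) (bas (pt 0))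
        = lam1 d q := by
      rw [hval (pt 0)]
      unfold lam1
      refine Finset.prod_congr rfl fun i _ => ?_
      have : pt 0 i = z' i := rfl
      rw [if_pos this]
      ring
    have h1 : ∀ a : Fin m, form (Φ (Matrix.of fun a b : Fin n → Fin d =>
      ∏ i, (if a i = z then (1 : ℂ) else 0) * star (if b i = z then (1 : ℂ) else 0))) (bas (pt a.succ))
        = lam2 d q j := by
      intro a
      rw [hval (pt a.succ), ← lam2_eq hd q hq (e a).1.1 j (e a).1.2]
      unfold lam2
      have hp : pt a.succ = Function.update z' (e a).1.1 (e a).2.1 := by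
        simp only [pt, Fin.cons_succ]
      rw [hp, ← Finset.mul_prod_erase Finset.univ _ (Finset.mem_univ (e a).1.1)]
      congr 1
      · rw [Function.update_self, if_neg (e a).2.2, add_zero]
      · refine Finset.prod_congr rfl fun i hi => ?_
        rw [Function.update_of_ne (Finset.ne_of_mem_erase hi), if_pos rfl]
        ring
    rw [h0, Finset.sum_congr rfl fun a _ => h1 a, Finset.sum_const, Finset.card_univ,
      Fintype.card_fin, nsmul_eq_mul]

end Pool.Agent.TH32.Dep
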