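import Pool.Agent.TH32.Dep.Key

set_option autoImplicit false

namespace Pool.Agent.TH32.Dep

open Finset

variable {d n : ℕ}

/-- the pattern of the complement of `S` -/
def pat (S : Finset (Fin n)) : Fin n → Bool := fun i => decide (i ∉ S)

theorem sum_dummy (S : Finset (Fin n)) (a : Fin n → Fin d) :
    ∑ b : Fin n → Fin d, (∏ i ∈ S, (if a i = b i then (1 : ℂ) else 0)) = (d : ℂ) ^ (n - S.card) := by
  have h1 : ∀ b : Fin n → Fin d, (∏ i ∈ S, (if a i = b i then (1 : ℂ) else 0))
      = ∏ i, (if i ∈ S then (if a i = b i then (1 : ℂ) else 0) else 1) := by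
    intro b
    rw [Finset.prod_ite_mem, Finset.univ_inter]
  rw [Finset.sum_congr rfl fun b _ => h1 b]
  have h2 := Finset.prod_univ_sum (fun _ : Fin n => (Finset.univ : Finset (Fin d)))
    (fun i x => if i ∈ S then (if a i = x then (1 : ℂ) else 0) else 1)
  rw [Fintype.piFinset_univ] at h2
  rw [← h2]
  have h3 : ∀ i : Fin n, ∑ x : Fin d, (if i ∈ S then (if a i = x then (1 : ℂ) else 0) else 1)
      = if i ∈ S then 1 else (d : ℂ) := by
    intro i
    split_ifs
    · simp
    · simp
  rw [Finset.prod_congr rfl fun i _ => h3 i]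
  rw [Finset.prod_ite]
  simp only [Finset.prod_const_one, one_mul, Finset.prod_const]
  congr 1
  have : Finset.univ.filter (fun i : Fin n => i ∉ S) = Finset.univ \ S := by
    ext i; simp
  rw [this, Finset.card_univ_sdiff, Fintype.card_fin]

theorem term (hd : 2 ≤ d) (φ ψ : (Fin n → Fin d) → ℂ) (S : Finset (Fin n)) :
    ∑ a, ∑ b, star (φ a) * ((∏ i ∈ S, (if a i = b i then (1 : ℂ) else 0)) *
      ((1 / (d : ℂ)) ^ n * ∑ c : Fin n → Fin d,
        (ψ (fun i => if i ∈ S then c i else a i) * star (ψ (fun i => if i ∈ S then c i else b i))))) * φ b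
      = (1 / (d : ℂ)) ^ S.card * F (fun p => φ p.1 * ψ p.2) (pat S) := by
  have hd0 : (d : ℂ) ≠ 0 := by
    have : d ≠ 0 := by omega
    exact_mod_cast this
  have key1 : ∀ a : Fin n → Fin d, ∑ b, star (φ a) * ((∏ i ∈ S, (if a i = b i then (1 : ℂ) else 0)) *
      ((1 / (d : ℂ)) ^ n * ∑ c : Fin n → Fin d,
        (ψ (fun i => if i ∈ S then c i else a i) * star (ψ (fun i => if i ∈ S then c i else b i))))) * φ b
      = (1 / (d : ℂ)) ^ S.card * ∑ c : Fin n → Fin d, star (φ a * ψ c) *
          (φ (sw (pat S) a c) * ψ (sw (pat S) c a)) := by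
    intro a
    have e1 : ∀ b, star (φ a) * ((∏ i ∈ S, (if a i = b i then (1 : ℂ) else 0)) *
      ((1 / (d : ℂ)) ^ n * ∑ c : Fin n → Fin d,
        (ψ (fun i => if i ∈ S then c i else a i) * star (ψ (fun i => if i ∈ S then c i else b i))))) * φ b
        = ∑ c : Fin n → Fin d, (1 / (d : ℂ)) ^ n * star (φ a) *
          ((∏ i ∈ S, (if a i = b i then (1 : ℂ) else 0)) * (φ b * ψ (fun i => if i ∈ S then c i else a i)
          * star (ψ (fun i => if i ∈ S then c i else b i)))) := by
      intro b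
      rw [Finset.mul_sum, Finset.mul_sum, Finset.mul_sum, Finset.sum_mul]
      refine Finset.sum_congr rfl fun c _ => ?_
      ring
    rw [Finset.sum_congr rfl fun b _ => e1 b]
    rw [← Finset.sum_product', Finset.univ_product_univ]
    rw [← Equiv.sum_comp (E_invol (d := d) (pat S)).toPerm]
    have e2 : ∀ p : (Fin n → Fin d) × (Fin n → Fin d),
        (fun x : (Fin n → Fin d) × (Fin n → Fin d) => (1 / (d : ℂ)) ^ n * star (φ a) *
          ((∏ i ∈ S, (if a i = x.1 i then (1 : ℂ) else 0)) * (φ x.1 * ψ (fun i => if i ∈ S then x.2 i else a i)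
          * star (ψ (fun i => if i ∈ S then x.2 i else x.1 i))))) ((Function.Involutive.toPerm _ (E_invol (d := d) (pat S))) p)
        = (∏ i ∈ S, (if a i = p.1 i then (1 : ℂ) else 0)) *
          ((1 / (d : ℂ)) ^ n * (star (φ a * ψ p.2) * (φ (sw (pat S) a p.2) * ψ (sw (pat S) p.2 a)))) := by
      intro p
      show (1 / (d : ℂ)) ^ n * star (φ a) *
          ((∏ i ∈ S, (if a i = sw (pat S) p.1 p.2 i then (1 : ℂ) else 0)) *
          (φ (sw (pat S) p.1 p.2) * ψ (fun i => if i ∈ S then sw (pat S) p.2 p.1 i else a i)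
          * star (ψ (fun i => if i ∈ S then sw (pat S) p.2 p.1 i else sw (pat S) p.1 p.2 i)))) = _
      have f1 : (∏ i ∈ S, (if a i = sw (pat S) p.1 p.2 i then (1 : ℂ) else 0))
          = ∏ i ∈ S, (if a i = p.1 i then (1 : ℂ) else 0) := by
        refine Finset.prod_congr rfl fun i hi => ?_
        simp [sw, pat, hi]
      have f2 : (fun i => if i ∈ S then sw (pat S) p.2 p.1 i else a i) = sw (pat S) p.2 a := by
        funext i
        by_cases hi : i ∈ S <;> simp [sw, pat, hi]
      have f3 : (fun i => if i ∈ S then sw (pat S) p.2 p.1 i else sw (pat S) p.1 p.2 i) = p.2 := by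
        funext i
        by_cases hi : i ∈ S <;> simp [sw, pat, hi]
      rw [f1, f2, f3]
      by_cases h : ∀ i ∈ S, a i = p.1 i
      · have f4 : sw (pat S) p.1 p.2 = sw (pat S) a p.2 := by
          funext i
          by_cases hi : i ∈ S
          · simp [sw, pat, hi, h i hi]
          · simp [sw, pat, hi]
        rw [f4, star_mul']
        ring
      · push Not at h
        obtain ⟨i, hi, hne⟩ := h
        have f5 : (∏ i ∈ S, (if a i = p.1 i then (1 : ℂ) else 0)) = 0 :=
          Finset.prod_eq_zero hi (if_neg hne)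
        rw [f5]
        ring
    rw [Finset.sum_congr rfl fun p _ => e2 p]
    rw [← Finset.univ_product_univ, Finset.sum_product]
    dsimp only
    have e3 : ∀ x : Fin n → Fin d, ∑ y : Fin n → Fin d, (∏ i ∈ S, (if a i = x i then (1 : ℂ) else 0)) *
          ((1 / (d : ℂ)) ^ n * (star (φ a * ψ y) * (φ (sw (pat S) a y) * ψ (sw (pat S) y a))))
        = (∏ i ∈ S, (if a i = x i then (1 : ℂ) else 0)) * ∑ y : Fin n → Fin d,
          ((1 / (d : ℂ)) ^ n * (star (φ a * ψ y) * (φ (sw (pat S) a y) * ψ (sw (pat S) y a)))) :=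
      fun x => (Finset.mul_sum _ _ _).symm
    rw [Finset.sum_congr rfl fun x _ => e3 x, ← Finset.sum_mul, sum_dummy, ← Finset.mul_sum, ← mul_assoc]
    congr 1
    have hc : S.card ≤ n := by
      have := Finset.card_le_univ S
      simpa using this
    have h9 : n = (n - S.card) + S.card := by omega
    calc (d : ℂ) ^ (n - S.card) * (1 / (d : ℂ)) ^ n
        = (d : ℂ) ^ (n - S.card) * (1 / (d : ℂ)) ^ ((n - S.card) + S.card) := by rw [← h9]
      _ = (1 / (d : ℂ)) ^ S.card := by
          rw [pow_add, ← mul_assoc, ← mul_pow, mul_one_div_cancel hd0, one_pow, one_mul]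
  rw [Finset.sum_congr rfl fun a _ => key1 a, ← Finset.mul_sum]
  congr 1
  unfold F E
  rw [← Finset.univ_product_univ, Finset.sum_product]

/-- subsets of sites and their patterns -/
def patEquiv : Finset (Fin n) ≃ (Fin n → Bool) where
  toFun := pat
  invFun t := Finset.univ.filter fun i => t i = false
  left_inv S := by ext i; simp [pat]
  right_inv t := by
    funext i
    simp only [pat, Finset.mem_filter, Finset.mem_univ, true_and]
    rcases h : t i <;> simp

theorem weight (d : ℕ) (q : Fin n → ℝ) (S : Finset (Fin n)) :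
    (((∏ i ∈ Finset.univ \ S, q i) * ∏ i ∈ S, (1 - q i) : ℝ) : ℂ) * (1 / (d : ℂ)) ^ S.card
      = ((w q (fun i => (1 - q i) / d) (pat S) : ℝ) : ℂ) := by
  have h1 : w q (fun i => (1 - q i) / d) (pat S)
      = (∏ i ∈ Finset.univ \ S, q i) * ∏ i ∈ S, ((1 - q i) / d) := by
    unfold w
    rw [← Finset.prod_sdiff (Finset.subset_univ S)]
    congr 1
    · refine Finset.prod_congr rfl fun i hi => ?_
      have : i ∉ S := (Finset.mem_sdiff.mp hi).2
      simp [pat, this]
    · refine Finset.prod_congr rfl fun i hi => ?_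
      simp [pat, hi]
  rw [h1, Finset.prod_div_distrib, Finset.prod_const]
  push_cast
  rw [one_div, inv_pow]
  ring

/-- the output form at a rank one input -/
theorem form_rank_one (hd : 2 ≤ d) (q : Fin n → ℝ) (φ ψ : (Fin n → Fin d) → ℂ) :
    ∑ a, ∑ b, star (φ a) * (∑ S : Finset (Fin n),
        (((∏ i ∈ Finset.univ \ S, q i) * ∏ i ∈ S, (1 - q i) : ℝ) : ℂ) *
        (∏ i ∈ S, (if a i = b i then (1 : ℂ) else 0)) *
        ((1 / (d : ℂ)) ^ n * ∑ c : Fin n → Fin d,
          (ψ (fun i => if i ∈ S then c i else a i) * star (ψ (fun i => if i ∈ S then c i else b i))))) * φ b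
      = ∑ t, ((w q (fun i => (1 - q i) / d) t : ℝ) : ℂ) * F (fun p => φ p.1 * ψ p.2) t := by
  have e1 : ∀ a b : Fin n → Fin d, star (φ a) * (∑ S : Finset (Fin n),
        (((∏ i ∈ Finset.univ \ S, q i) * ∏ i ∈ S, (1 - q i) : ℝ) : ℂ) *
        (∏ i ∈ S, (if a i = b i then (1 : ℂ) else 0)) *
        ((1 / (d : ℂ)) ^ n * ∑ c : Fin n → Fin d,
          (ψ (fun i => if i ∈ S then c i else a i) * star (ψ (fun i => if i ∈ S then c i else b i))))) * φ b
      = ∑ S : Finset (Fin n), (((∏ i ∈ Finset.univ \ S, q i) * ∏ i ∈ S, (1 - q i) : ℝ) : ℂ) *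
        (star (φ a) * ((∏ i ∈ S, (if a i = b i then (1 : ℂ) else 0)) *
        ((1 / (d : ℂ)) ^ n * ∑ c : Fin n → Fin d,
          (ψ (fun i => if i ∈ S then c i else a i) * star (ψ (fun i => if i ∈ S then c i else b i))))) * φ b) := by
    intro a b
    rw [Finset.mul_sum, Finset.sum_mul]
    refine Finset.sum_congr rfl fun S _ => ?_
    ring
  simp_rw [e1]
  have e2 : ∀ a : Fin n → Fin d, ∑ b, ∑ S : Finset (Fin n), (((∏ i ∈ Finset.univ \ S, q i) * ∏ i ∈ S, (1 - q i) : ℝ) : ℂ) *
        (star (φ a) * ((∏ i ∈ S, (if a i = b i then (1 : ℂ) else 0)) *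
        ((1 / (d : ℂ)) ^ n * ∑ c : Fin n → Fin d,
          (ψ (fun i => if i ∈ S then c i else a i) * star (ψ (fun i => if i ∈ S then c i else b i))))) * φ b)
      = ∑ S : Finset (Fin n), (((∏ i ∈ Finset.univ \ S, q i) * ∏ i ∈ S, (1 - q i) : ℝ) : ℂ) *
        ∑ b, (star (φ a) * ((∏ i ∈ S, (if a i = b i then (1 : ℂ) else 0)) *
        ((1 / (d : ℂ)) ^ n * ∑ c : Fin n → Fin d,
          (ψ (fun i => if i ∈ S then c i else a i) * star (ψ (fun i => if i ∈ S then c i else b i))))) * φ b) := by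
    intro a
    rw [Finset.sum_comm]
    refine Finset.sum_congr rfl fun S _ => ?_
    rw [Finset.mul_sum]
  rw [Finset.sum_congr rfl fun a _ => e2 a, Finset.sum_comm]
  rw [← Equiv.sum_comp (patEquiv (n := n))]
  refine Finset.sum_congr rfl fun S _ => ?_
  rw [← Finset.mul_sum, term hd φ ψ S, ← mul_assoc, weight d q S]
  rfl

end Pool.Agent.TH32.Dep
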