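import Pool.Agent.TH32.Dep.Channel

set_option autoImplicit false
open scoped ComplexOrder
open Finset

namespace Pool.Agent.TH32.Dep

/-- `Re ⟨φ, X φ⟩` -/
noncomputable def form {m : Type} [Fintype m] (X : Matrix m m ℂ) (φ : m → ℂ) : ℝ :=
  (∑ a, ∑ b, star (φ a) * X a b * φ b).re

/-- `φ` is an orthonormal family -/
def ON {m : Type} [Fintype m] {k : ℕ} (φ : Fin k → m → ℂ) : Prop :=
  ∀ a b, ∑ x, star (φ a x) * φ b x = if a = b then (1 : ℂ) else 0

/-- largest output eigenvalue at a pure product input -/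
noncomputable def lam1 (d : ℕ) {n : ℕ} (q : Fin n → ℝ) : ℝ := ∏ i, (q i + (1 - q i) / d)

/-- second output eigenvalue at a pure product input -/
noncomputable def lam2 (d : ℕ) {n : ℕ} (q : Fin n → ℝ) (j : Fin n) : ℝ :=
  ((1 - q j) / d) * ∏ i ∈ Finset.univ.erase j, (q i + (1 - q i) / d)

variable {d n : ℕ}

theorem bessel {m : Type} [Fintype m] {k : ℕ} (φ : Fin k → m → ℂ) (h : ON φ) (ψ : m → ℂ) :
    ∑ a, Complex.normSq (∑ x, star (φ a x) * ψ x) ≤ ∑ x, Complex.normSq (ψ x) := by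
  have h1 : Orthonormal ℂ (fun a : Fin k => (WithLp.toLp 2 (φ a) : EuclideanSpace ℂ m)) := by
    rw [orthonormal_iff_ite]
    intro a b
    rw [← h a b, PiLp.inner_apply]
    refine Finset.sum_congr rfl fun x _ => ?_
    simp [RCLike.inner_apply, mul_comm]
  have h2 := h1.sum_inner_products_le (s := Finset.univ) (WithLp.toLp 2 ψ : EuclideanSpace ℂ m)
  have h3 : ∀ a : Fin k, Complex.normSq (∑ x, star (φ a x) * ψ x)
      = ‖inner ℂ (WithLp.toLp 2 (φ a) : EuclideanSpace ℂ m) (WithLp.toLp 2 ψ)‖ ^ 2 := by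
    intro a
    rw [Complex.normSq_eq_norm_sq, PiLp.inner_apply]
    congr 2
    refine Finset.sum_congr rfl fun x _ => ?_
    simp [RCLike.inner_apply, mul_comm]
  have h4 : ∑ x, Complex.normSq (ψ x) = ‖(WithLp.toLp 2 ψ : EuclideanSpace ℂ m)‖ ^ 2 := by
    rw [EuclideanSpace.norm_sq_eq]
    refine Finset.sum_congr rfl fun x _ => ?_
    rw [Complex.normSq_eq_norm_sq]
  rw [h4, Finset.sum_congr rfl fun a _ => h3 a]
  exact h2

theorem F_false (φ ψ : (Fin n → Fin d) → ℂ) :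
    (F (fun p => φ p.1 * ψ p.2) (fun _ => false)).re
      = (∑ a, Complex.normSq (φ a)) * ∑ c, Complex.normSq (ψ c) := by
  have h1 : F (fun p => φ p.1 * ψ p.2) (fun _ => false)
      = (((∑ a, Complex.normSq (φ a)) * ∑ c, Complex.normSq (ψ c) : ℝ) : ℂ) := by
    unfold F E
    rw [← Finset.univ_product_univ, Finset.sum_product]
    simp only [sw_false]
    push_cast
    rw [Finset.sum_mul_sum]
    refine Finset.sum_congr rfl fun a _ => Finset.sum_congr rfl fun c _ => ?_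
    rw [Complex.normSq_eq_conj_mul_self, Complex.normSq_eq_conj_mul_self, star_mul']
    simp only [Complex.star_def]
    ring
  rw [h1, Complex.ofReal_re]

theorem sw_true (a c : Fin n → Fin d) : sw (fun _ => true) a c = c := by
  funext i; simp [sw]

theorem F_true (φ ψ : (Fin n → Fin d) → ℂ) :
    (F (fun p => φ p.1 * ψ p.2) (fun _ => true)).re = Complex.normSq (∑ a, star (φ a) * ψ a) := by
  have h1 : F (fun p => φ p.1 * ψ p.2) (fun _ => true)
      = ((Complex.normSq (∑ a, star (φ a) * ψ a) : ℝ) : ℂ) := by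
    unfold F E
    rw [← Finset.univ_product_univ, Finset.sum_product]
    simp only [sw_true]
    rw [← Complex.mul_conj, map_sum, Finset.sum_mul_sum]
    refine Finset.sum_congr rfl fun a _ => Finset.sum_congr rfl fun c _ => ?_
    rw [star_mul', map_mul]
    simp only [Complex.star_def, Complex.conj_conj]
    ring
  rw [h1, Complex.ofReal_re]

/-- the channel, given by its formula -/
def IsChan (d n : ℕ) (q : Fin n → ℝ)
    (Φ : Matrix (Fin n → Fin d) (Fin n → Fin d) ℂ → Matrix (Fin n → Fin d) (Fin n → Fin d) ℂ) : Prop :=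
  ∀ (X : Matrix (Fin n → Fin d) (Fin n → Fin d) ℂ) (a b : Fin n → Fin d),
      Φ X a b = ∑ S : Finset (Fin n),
        (((∏ i ∈ Finset.univ \ S, q i) * ∏ i ∈ S, (1 - q i) : ℝ) : ℂ) *
        (∏ i ∈ S, (if a i = b i then (1 : ℂ) else 0)) *
        ((1 / (d : ℂ)) ^ n * ∑ c : Fin n → Fin d,
          X (fun i => if i ∈ S then c i else a i) (fun i => if i ∈ S then c i else b i))

theorem form_sum (hd : 2 ≤ d) (q : Fin n → ℝ)
    (Φ : Matrix (Fin n → Fin d) (Fin n → Fin d) ℂ → Matrix (Fin n → Fin d) (Fin n → Fin d) ℂ)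
    (hΦ : IsChan d n q Φ) {l : Type} [Fintype l] (ψ : l → (Fin n → Fin d) → ℂ)
    (ρ : Matrix (Fin n → Fin d) (Fin n → Fin d) ℂ)
    (hρ : ∀ a b, ρ a b = ∑ x, ψ x a * star (ψ x b)) (φ : (Fin n → Fin d) → ℂ) :
    form (Φ ρ) φ = ∑ x, ∑ t, w q (fun i => (1 - q i) / d) t * (F (fun p => φ p.1 * ψ x p.2) t).re := by
  have h1 : ∀ a b, Φ ρ a b = ∑ x, ∑ S : Finset (Fin n),
        (((∏ i ∈ Finset.univ \ S, q i) * ∏ i ∈ S, (1 - q i) : ℝ) : ℂ) *
        (∏ i ∈ S, (if a i = b i then (1 : ℂ) else 0)) *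
        ((1 / (d : ℂ)) ^ n * ∑ c : Fin n → Fin d,
          (ψ x (fun i => if i ∈ S then c i else a i) * star (ψ x (fun i => if i ∈ S then c i else b i)))) := by
    intro a b
    rw [hΦ ρ a b, Finset.sum_comm]
    refine Finset.sum_congr rfl fun S _ => ?_
    rw [← Finset.mul_sum, ← Finset.mul_sum, Finset.sum_comm]
    congr 2
    refine Finset.sum_congr rfl fun c _ => ?_
    exact hρ _ _
  unfold form
  have h2 : ∑ a, ∑ b, star (φ a) * Φ ρ a b * φ b
      = ∑ x, ∑ t, ((w q (fun i => (1 - q i) / d) t : ℝ) : ℂ) * F (fun p => φ p.1 * ψ x p.2) t := by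
    refine Eq.trans ?_ (Finset.sum_congr rfl fun x _ => form_rank_one hd q φ (ψ x))
    conv_rhs => rw [Finset.sum_comm]
    refine Finset.sum_congr rfl fun a _ => ?_
    conv_rhs => rw [Finset.sum_comm]
    refine Finset.sum_congr rfl fun b _ => ?_
    rw [h1 a b, Finset.mul_sum, Finset.sum_mul]
  rw [h2, Complex.re_sum]
  refine Finset.sum_congr rfl fun x _ => ?_
  rw [Complex.re_sum]
  refine Finset.sum_congr rfl fun t _ => ?_
  rw [Complex.re_ofReal_mul]

theorem form_self {l : Type} [Fintype l] (ψ : l → (Fin n → Fin d) → ℂ)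
    (ρ : Matrix (Fin n → Fin d) (Fin n → Fin d) ℂ)
    (hρ : ∀ a b, ρ a b = ∑ x, ψ x a * star (ψ x b)) (φ : (Fin n → Fin d) → ℂ) :
    form ρ φ = ∑ x, Complex.normSq (∑ a, star (φ a) * ψ x a) := by
  unfold form
  have h2 : ∑ a, ∑ b, star (φ a) * ρ a b * φ b
      = ((∑ x, Complex.normSq (∑ a, star (φ a) * ψ x a) : ℝ) : ℂ) := by
    push_cast
    have e1 : ∀ x, (Complex.normSq (∑ a, star (φ a) * ψ x a) : ℂ)
        = ∑ a, ∑ b, star (φ a) * (ψ x a * star (ψ x b)) * φ b := by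
      intro x
      rw [← Complex.mul_conj, map_sum, Finset.sum_mul_sum]
      refine Finset.sum_congr rfl fun a _ => Finset.sum_congr rfl fun c _ => ?_
      rw [map_mul]
      simp only [Complex.star_def, Complex.conj_conj]
      ring
    rw [Finset.sum_congr rfl fun x _ => e1 x]
    conv_rhs => rw [Finset.sum_comm]
    refine Finset.sum_congr rfl fun a _ => ?_
    conv_rhs => rw [Finset.sum_comm]
    refine Finset.sum_congr rfl fun b _ => ?_
    rw [hρ a b, Finset.mul_sum, Finset.sum_mul]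
  rw [h2, Complex.ofReal_re]

open scoped MatrixOrder in
theorem psd_decomp {m : Type} [Fintype m] [DecidableEq m] (ρ : Matrix m m ℂ) (h : ρ.PosSemidef) :
    ∃ ψ : m → m → ℂ, (∀ a b, ρ a b = ∑ x, ψ x a * star (ψ x b)) := by
  obtain ⟨B, hB⟩ := CStarAlgebra.nonneg_iff_eq_star_mul_self.mp h.nonneg
  refine ⟨fun x a => star (B x a), fun a b => ?_⟩
  rw [hB, Matrix.star_eq_conjTranspose, Matrix.mul_apply]
  refine Finset.sum_congr rfl fun x _ => ?_
  rw [Matrix.conjTranspose_apply, star_star]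

theorem trace_decomp {m : Type} [Fintype m] (ρ : Matrix m m ℂ) {l : Type} [Fintype l] (ψ : l → m → ℂ)
    (hρ : ∀ a b, ρ a b = ∑ x, ψ x a * star (ψ x b)) (ht : ρ.trace = 1) :
    ∑ x, ∑ a, Complex.normSq (ψ x a) = 1 := by
  have h1 : ((∑ x, ∑ a, Complex.normSq (ψ x a) : ℝ) : ℂ) = 1 := by
    rw [← ht, Matrix.trace, Finset.sum_comm]
    push_cast
    refine Finset.sum_congr rfl fun a _ => ?_
    rw [Matrix.diag_apply, hρ]
    refine Finset.sum_congr rfl fun x _ => ?_
    rw [Complex.star_def, Complex.mul_conj]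
  exact_mod_cast h1

theorem part_a (hd : 2 ≤ d) (q : Fin n → ℝ) (hq : ∀ i, 0 ≤ q i ∧ q i ≤ 1) (j : Fin n)
    (hj : ∀ i, q j ≤ q i) (hj1 : q j ≤ 1 / ((d : ℝ) + 1))
    (Φ : Matrix (Fin n → Fin d) (Fin n → Fin d) ℂ → Matrix (Fin n → Fin d) (Fin n → Fin d) ℂ)
    (hΦ : IsChan d n q Φ) (ρ : Matrix (Fin n → Fin d) (Fin n → Fin d) ℂ) (hρ : ρ.PosSemidef)
    (ht : ρ.trace = 1) (φ : (Fin n → Fin d) → ℂ) :
    form (Φ ρ) φ ≤ lam2 d q j * ∑ a, ‖φ a‖ ^ 2 + (lam1 d q - lam2 d q j) * form ρ φ := by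
  obtain ⟨ψ, hψ⟩ := psd_decomp ρ hρ
  rw [form_sum hd q Φ hΦ ψ ρ hψ φ, form_self ψ ρ hψ φ]
  have hd0 : (0 : ℝ) < d := by
    have : 0 < d := by omega
    exact_mod_cast this
  have hd1 : (2 : ℝ) ≤ d := by exact_mod_cast hd
  let r : Fin n → ℝ := fun i => (1 - q i) / d
  have hr : ∀ i, 0 ≤ r i := fun i => div_nonneg (by linarith [(hq i).2]) hd0.le
  have hs : ∀ i, 0 < q i + r i := by
    intro i
    have h1 : q i + r i = (1 + (d - 1) * q i) / d := by
      simp only [r]; field_simp; ring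
    rw [h1]
    refine div_pos ?_ hd0
    have := mul_nonneg (by linarith : (0 : ℝ) ≤ d - 1) (hq i).1
    linarith
  have hmono : ∀ i, (r i - q i) / (q i + r i) ≤ (r j - q j) / (q j + r j) := by
    intro i
    rw [div_le_div_iff₀ (hs i) (hs j)]
    have h1 : r i * q j ≤ r j * q i := by
      simp only [r]
      rw [div_mul_eq_mul_div, div_mul_eq_mul_div, div_le_div_iff_of_pos_right hd0]
      nlinarith [hj i]
    nlinarith [h1]
  have hj0 : q j ≤ r j := by
    simp only [r]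
    rw [le_div_iff₀ hd0]
    rw [le_div_iff₀ (by linarith)] at hj1
    linarith
  have hl2 : r j / (q j + r j) * ∏ i, (q i + r i) = lam2 d q j := by
    unfold lam2
    rw [← Finset.mul_prod_erase Finset.univ _ (Finset.mem_univ j)]
    have := (hs j).ne'
    rw [← mul_assoc, div_mul_cancel₀ _ this]
  have hnorm : ∑ a, ‖φ a‖ ^ 2 = ∑ a, Complex.normSq (φ a) :=
    Finset.sum_congr rfl fun a _ => (Complex.normSq_eq_norm_sq _).symm
  have h1 : ∀ x, ∑ t, w q r t * (F (fun p => φ p.1 * ψ x p.2) t).re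
      ≤ lam2 d q j * ((∑ a, Complex.normSq (φ a)) * ∑ c, Complex.normSq (ψ x c))
        + (lam1 d q - lam2 d q j) * Complex.normSq (∑ a, star (φ a) * ψ x a) := by
    intro x
    have h2 := key q r (fun i => (hq i).1) hr hs j hmono hj0 (fun p => φ p.1 * ψ x p.2)
    rw [hl2, F_false, F_true] at h2
    exact h2
  refine (Finset.sum_le_sum fun x _ => h1 x).trans (le_of_eq ?_)
  rw [Finset.sum_add_distrib, ← Finset.mul_sum, ← Finset.mul_sum, ← Finset.mul_sum,
    trace_decomp ρ ψ hψ ht, mul_one, hnorm]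

end Pool.Agent.TH32.Dep
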