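import Pool.Agent.TH32.Dep.Walsh

set_option autoImplicit false

namespace Pool.Agent.TH32.Dep

open Finset

variable {d n : ℕ}

/-- site sign: a product of site ratios over an odd set is at most the largest ratio -/
theorem odd_prod (c : Fin n → ℝ) (hc : ∀ i, |c i| ≤ 1) (j : Fin n) (hj : ∀ i, c i ≤ c j)
    (hj0 : 0 ≤ c j) (D : Fin n → Bool) (hD : chi D (fun _ => true) = -1) :
    ∏ i, (if D i then c i else 1) ≤ c j := by
  by_cases h : ∃ i, D i = true ∧ 0 ≤ c i
  · obtain ⟨i, hi, hi0⟩ := h
    rw [← Finset.mul_prod_erase Finset.univ _ (Finset.mem_univ i), if_pos hi]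
    have h1 : ∏ k ∈ Finset.univ.erase i, (if D k then c k else 1) ≤ 1 := by
      refine (le_abs_self _).trans ?_
      rw [Finset.abs_prod]
      refine Finset.prod_le_one (fun k _ => abs_nonneg _) fun k _ => ?_
      split_ifs
      · exact hc k
      · simp
    calc c i * _ ≤ c i * 1 := mul_le_mul_of_nonneg_left h1 hi0
      _ ≤ c j := by rw [mul_one]; exact hj i
  · push_neg at h
    have h1 : 0 ≤ ∏ i, ((if D i then c i else 1) * g (D i) true) := by
      refine Finset.prod_nonneg fun i _ => ?_
      rcases h2 : D i
      · simp [g]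
      · have := h i h2
        simp [g]
        linarith
    rw [Finset.prod_mul_distrib] at h1
    have h2 : ∏ i, g (D i) true = -1 := hD
    rw [h2] at h1
    linarith

theorem any_prod (c : Fin n → ℝ) (hc : ∀ i, |c i| ≤ 1) (D : Fin n → Bool) :
    ∏ i, (if D i then c i else 1) ≤ 1 := by
  refine (le_abs_self _).trans ?_
  rw [Finset.abs_prod]
  refine Finset.prod_le_one (fun k _ => abs_nonneg _) fun k _ => ?_
  split_ifs
  · exact hc k
  · simp

/-- weight of a site pattern -/
def w (q r : Fin n → ℝ) (t : Fin n → Bool) : ℝ := ∏ i, (if t i then q i else r i)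

theorem w_chi (q r : Fin n → ℝ) (D : Fin n → Bool) :
    ∑ t, w q r t * chi D t = ∏ i, (r i + g (D i) true * q i) := by
  have h := sum_prod (n := n) (fun i b => (if b then q i else r i) * g (D i) b)
  have h1 : ∑ t, w q r t * chi D t = ∑ t : Fin n → Bool, ∏ i, (if t i then q i else r i) * g (D i) (t i) := by
    refine Finset.sum_congr rfl fun t _ => ?_
    unfold w chi
    rw [← Finset.prod_mul_distrib]
  rw [h1, h]
  refine Finset.prod_congr rfl fun i _ => ?_
  rw [Fintype.sum_bool]
  simp [g]
  ring

theorem key (q r : Fin n → ℝ) (hq : ∀ i, 0 ≤ q i) (hr : ∀ i, 0 ≤ r i) (hs : ∀ i, 0 < q i + r i)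
    (j : Fin n) (hj : ∀ i, (r i - q i) / (q i + r i) ≤ (r j - q j) / (q j + r j)) (hj0 : q j ≤ r j)
    (v : (Fin n → Fin d) × (Fin n → Fin d) → ℂ) :
    ∑ t, w q r t * (F v t).re
      ≤ (r j / (q j + r j) * ∏ i, (q i + r i)) * (F v (fun _ => false)).re
        + (∏ i, (q i + r i) - r j / (q j + r j) * ∏ i, (q i + r i)) * (F v (fun _ => true)).re := by
  set P := ∏ i, (q i + r i) with hP
  have hP0 : 0 < P := Finset.prod_pos fun i _ => hs i
  set l2 := r j / (q j + r j) * P with hl2
  let β : (Fin n → Bool) → ℝ := fun t => (if t = (fun _ => false) then l2 else 0)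
    + (if t = (fun _ => true) then (P - l2) else 0) - w q r t
  have hT := transfer v β (by
    intro D
    have h1 : ∑ t, β t * chi D t = l2 * chi D (fun _ => false) + (P - l2) * chi D (fun _ => true)
        - ∑ t, w q r t * chi D t := by
      simp only [β, sub_mul, add_mul, ite_mul, zero_mul, Finset.sum_sub_distrib, Finset.sum_add_distrib,
        Finset.sum_ite_eq', Finset.mem_univ, if_true]
    rw [h1, w_chi]
    have h2 : chi D (fun _ => false) = 1 := by
      unfold chi; refine Finset.prod_eq_one fun i _ => ?_; simp [g]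
    have h3 : chi D (fun _ => true) = 1 ∨ chi D (fun _ => true) = -1 := by
      have := chi_sq D (fun _ => true)
      exact mul_self_eq_one_iff.mp this
    let c : Fin n → ℝ := fun i => (r i - q i) / (q i + r i)
    have hc : ∀ i, |c i| ≤ 1 := by
      intro i
      simp only [c]
      rw [abs_div, abs_of_pos (hs i), div_le_one (hs i), abs_le]
      constructor <;> linarith [hq i, hr i]
    have h4 : ∏ i, (r i + g (D i) true * q i) = P * ∏ i, (if D i then c i else 1) := by
      rw [hP, ← Finset.prod_mul_distrib]
      refine Finset.prod_congr rfl fun i _ => ?_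
      rcases h5 : D i
      · simp [g]; ring
      · simp only [g, c]
        have := (hs i).ne'
        simp
        field_simp
        ring
    rw [h2, h4]
    rcases h3 with h3 | h3
    · rw [h3]
      have := any_prod c hc D
      nlinarith
    · rw [h3]
      have h6 := odd_prod c hc j hj (div_nonneg (by linarith) (hs j).le) D h3
      have h7 : l2 * 1 + (P - l2) * -1 = P * c j := by
        simp only [hl2, c]
        have := (hs j).ne'
        field_simp
        ring
      rw [h7]
      have := mul_le_mul_of_nonneg_left h6 hP0.le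
      linarith)
  have h8 : ∑ t, β t * (F v t).re = l2 * (F v (fun _ => false)).re
      + (P - l2) * (F v (fun _ => true)).re - ∑ t, w q r t * (F v t).re := by
    simp only [β, sub_mul, add_mul, ite_mul, zero_mul, Finset.sum_sub_distrib, Finset.sum_add_distrib,
      Finset.sum_ite_eq', Finset.mem_univ, if_true]
  rw [h8] at hT
  linarith

end Pool.Agent.TH32.Dep
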