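import Mathlib

set_option autoImplicit false

/-! Walsh expansion of the partial swaps of two copies of `Fin n → Fin d`. -/

namespace Pool.Agent.TH32.Dep

open Finset

variable {d n : ℕ}

/-- take `c` where `t` holds and `a` elsewhere -/
def sw (t : Fin n → Bool) (a c : Fin n → Fin d) : Fin n → Fin d := fun i => if t i then c i else a i

/-- partial swap -/
def E (t : Fin n → Bool) (p : (Fin n → Fin d) × (Fin n → Fin d)) :
    (Fin n → Fin d) × (Fin n → Fin d) := (sw t p.1 p.2, sw t p.2 p.1)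

def xr (t u : Fin n → Bool) : Fin n → Bool := fun i => xor (t i) (u i)

theorem sw_sw (t u : Fin n → Bool) (a c : Fin n → Fin d) :
    sw u (sw t a c) (sw t c a) = sw (xr t u) a c := by
  funext i
  rcases h1 : t i <;> rcases h2 : u i <;> simp [sw, xr, h1, h2]

theorem E_E (t u : Fin n → Bool) (p : (Fin n → Fin d) × (Fin n → Fin d)) :
    E u (E t p) = E (xr t u) p :=
  Prod.ext (sw_sw t u p.1 p.2) (sw_sw t u p.2 p.1)

theorem xr_self (t : Fin n → Bool) : xr t t = fun _ => false := by
  funext i; simp [xr]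

theorem sw_false (a c : Fin n → Fin d) : sw (fun _ => false) a c = a := by
  funext i; simp [sw]

theorem E_invol (t : Fin n → Bool) : Function.Involutive (E (d := d) t) := by
  intro p
  rw [E_E, xr_self]
  exact Prod.ext (sw_false p.1 p.2) (sw_false p.2 p.1)

theorem xr_invol (t : Fin n → Bool) : Function.Involutive (xr t) := by
  intro u; funext i
  rcases h1 : t i <;> rcases h2 : u i <;> simp [xr, h1, h2]

def g (b t : Bool) : ℝ := if b && t then -1 else 1

def chi (D t : Fin n → Bool) : ℝ := ∏ i, g (D i) (t i)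

theorem chi_xr (D t u : Fin n → Bool) : chi D (xr t u) = chi D t * chi D u := by
  unfold chi
  rw [← Finset.prod_mul_distrib]
  refine Finset.prod_congr rfl fun i _ => ?_
  rcases h1 : t i <;> rcases h2 : u i <;> rcases h3 : D i <;> simp [g, xr, h1, h2]

theorem chi_sq (D t : Fin n → Bool) : chi D t * chi D t = 1 := by
  unfold chi
  rw [← Finset.prod_mul_distrib]
  refine Finset.prod_eq_one fun i _ => ?_
  rcases h1 : t i <;> rcases h3 : D i <;> simp [g]

theorem sum_prod (f : Fin n → Bool → ℝ) : ∑ D : Fin n → Bool, ∏ i, f i (D i) = ∏ i, ∑ b, f i b := by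
  rw [Finset.prod_univ_sum, Fintype.piFinset_univ]

theorem chi_orth (t u : Fin n → Bool) :
    ∑ D : Fin n → Bool, chi D t * chi D u = if t = u then 2 ^ n else 0 := by
  have h1 : ∑ D : Fin n → Bool, chi D t * chi D u
      = ∑ D : Fin n → Bool, ∏ i, g (D i) (t i) * g (D i) (u i) := by
    refine Finset.sum_congr rfl fun D _ => ?_
    unfold chi; rw [← Finset.prod_mul_distrib]
  have h0 := sum_prod (n := n) (fun i b => g b (t i) * g b (u i))
  have h2 : ∀ i : Fin n, ∑ b : Bool, g b (t i) * g b (u i)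
      = if t i = u i then (2 : ℝ) else 0 := by
    intro i
    rcases h1 : t i <;> rcases h2 : u i <;> simp [g] <;> norm_num
  rw [h1, h0, Finset.prod_congr rfl fun i _ => h2 i, Finset.prod_ite_zero]
  by_cases h : t = u
  · subst h; simp
  · rw [if_neg h, if_neg]
    intro h3
    exact h (funext fun i => h3 i (Finset.mem_univ i))

/-- the partial swap form -/
noncomputable def F (v : (Fin n → Fin d) × (Fin n → Fin d) → ℂ) (t : Fin n → Bool) : ℂ :=
  ∑ p, star (v p) * v (E t p)

theorem F_shift (v : (Fin n → Fin d) × (Fin n → Fin d) → ℂ) (t u : Fin n → Bool) :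
    ∑ p, star (v (E t p)) * v (E u p) = F v (xr t u) := by
  unfold F
  rw [← Equiv.sum_comp (E_invol (d := d) t).toPerm (fun p => star (v (E t p)) * v (E u p))]
  refine Finset.sum_congr rfl fun p _ => ?_
  simp only [Function.Involutive.coe_toPerm]
  rw [E_invol t p, E_E]

theorem pos_aux (v : (Fin n → Fin d) × (Fin n → Fin d) → ℂ) (D : Fin n → Bool) :
    (2 : ℂ) ^ n * ∑ t, (chi D t : ℂ) * F v t
      = ∑ p, (Complex.normSq (∑ t, (chi D t : ℂ) * v (E t p)) : ℂ) := by
  have h1 : ∀ p, (Complex.normSq (∑ t, (chi D t : ℂ) * v (E t p)) : ℂ)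
      = ∑ t, ∑ u, (chi D t : ℂ) * (chi D u : ℂ) * (star (v (E t p)) * v (E u p)) := by
    intro p
    rw [Complex.normSq_eq_conj_mul_self, map_sum, Finset.sum_mul_sum]
    refine Finset.sum_congr rfl fun t _ => Finset.sum_congr rfl fun u _ => ?_
    rw [map_mul, Complex.conj_ofReal]
    simp only [Complex.star_def]
    ring
  rw [Finset.sum_congr rfl fun p _ => h1 p, Finset.sum_comm]
  have h2 : ∀ t : Fin n → Bool, ∑ p, ∑ u, (chi D t : ℂ) * (chi D u : ℂ) * (star (v (E t p)) * v (E u p))
      = ∑ u, (chi D u : ℂ) * F v u := by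
    intro t
    rw [Finset.sum_comm]
    have h3 : ∀ u : Fin n → Bool, ∑ p, (chi D t : ℂ) * (chi D u : ℂ) * (star (v (E t p)) * v (E u p))
        = (chi D t : ℂ) * (chi D u : ℂ) * F v (xr t u) := by
      intro u
      rw [← Finset.mul_sum, F_shift]
    rw [Finset.sum_congr rfl fun u _ => h3 u]
    rw [← Equiv.sum_comp (xr_invol t).toPerm (fun u => (chi D t : ℂ) * (chi D u : ℂ) * F v (xr t u))]
    refine Finset.sum_congr rfl fun u _ => ?_
    simp only [Function.Involutive.coe_toPerm]
    rw [xr_invol t u, chi_xr]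
    have := chi_sq D t
    have h4 : (chi D t : ℂ) * (chi D t : ℂ) = 1 := by exact_mod_cast this
    push_cast
    calc (chi D t : ℂ) * ((chi D t : ℂ) * (chi D u : ℂ)) * F v u
        = ((chi D t : ℂ) * (chi D t : ℂ)) * ((chi D u : ℂ) * F v u) := by ring
      _ = _ := by rw [h4, one_mul]
  rw [Finset.sum_congr rfl fun t _ => h2 t, Finset.sum_const, Finset.card_univ]
  simp

theorem pos (v : (Fin n → Fin d) × (Fin n → Fin d) → ℂ) (D : Fin n → Bool) :
    0 ≤ ∑ t, chi D t * (F v t).re := by
  have h := congrArg Complex.re (pos_aux v D)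
  have h1 : ((2 : ℂ) ^ n * ∑ t, (chi D t : ℂ) * F v t).re = 2 ^ n * ∑ t, chi D t * (F v t).re := by
    have e : (2 : ℂ) ^ n = (((2 : ℝ) ^ n : ℝ) : ℂ) := by push_cast; rfl
    rw [e, Complex.re_ofReal_mul, Complex.re_sum]
    congr 1
    refine Finset.sum_congr rfl fun t _ => ?_
    rw [Complex.re_ofReal_mul]
  rw [h1, Complex.re_sum] at h
  have h2 : 0 ≤ ∑ p, ((Complex.normSq (∑ t, (chi D t : ℂ) * v (E t p)) : ℝ) : ℂ).re :=
    Finset.sum_nonneg fun p _ => by rw [Complex.ofReal_re]; exact Complex.normSq_nonneg _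
  rw [← h] at h2
  exact nonneg_of_mul_nonneg_right h2 (by positivity)

theorem inversion (β f : (Fin n → Bool) → ℝ) :
    ∑ D, (∑ t, β t * chi D t) * (∑ u, chi D u * f u) = 2 ^ n * ∑ t, β t * f t := by
  have h1 : ∀ D : Fin n → Bool, (∑ t, β t * chi D t) * (∑ u, chi D u * f u)
      = ∑ t, ∑ u, β t * f u * (chi D t * chi D u) := by
    intro D
    rw [Finset.sum_mul_sum]
    refine Finset.sum_congr rfl fun t _ => Finset.sum_congr rfl fun u _ => ?_
    ring
  rw [Finset.sum_congr rfl fun D _ => h1 D, Finset.sum_comm, Finset.mul_sum]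
  refine Finset.sum_congr rfl fun t _ => ?_
  rw [Finset.sum_comm]
  have h2 : ∀ u : Fin n → Bool, ∑ D : Fin n → Bool, β t * f u * (chi D t * chi D u)
      = if t = u then β t * f u * 2 ^ n else 0 := by
    intro u
    rw [← Finset.mul_sum, chi_orth]
    split_ifs <;> ring
  rw [Finset.sum_congr rfl fun u _ => h2 u, Finset.sum_ite_eq]
  simp only [Finset.mem_univ, if_true]
  ring

/-- positivity transfer: if the Walsh transform of `β` is nonnegative, so is the form -/
theorem transfer (v : (Fin n → Fin d) × (Fin n → Fin d) → ℂ) (β : (Fin n → Bool) → ℝ)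
    (hβ : ∀ D : Fin n → Bool, 0 ≤ ∑ t, β t * chi D t) : 0 ≤ ∑ t, β t * (F v t).re := by
  have h := inversion β (fun t => (F v t).re)
  have h1 : 0 ≤ ∑ D : Fin n → Bool, (∑ t, β t * chi D t) * (∑ u, chi D u * (F v u).re) :=
    Finset.sum_nonneg fun D _ => mul_nonneg (hβ D) (pos v D)
  rw [h] at h1
  exact nonneg_of_mul_nonneg_right h1 (by positivity)

end Pool.Agent.TH32.Dep
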